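import Mathlib
import Pool.Agent.Helper168.SV.Closed

/-!
# Boyd's conjecture for matrices whose Gram height is controlled by the measure

Let `A(z) = z ^ (-d) P(z)` be a square matrix, of any size, of Laurent polynomials with integer
coefficients in any number `k` of variables.  Its Gram height is the mean over the torus of the
logarithm of the product of the numbers `max(1, σ ^ 2)` over the singular values `σ` of `A(z)`, and
`M(A)` is the Mahler measure of the characteristic polynomial `det (z_0 - A(z))` in `k + 1` variables.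

Let `Λ` be any nondecreasing function.  Consider the measures `M(A)` of all the matrices `A`, of all
sizes and in all numbers of variables, whose characteristic polynomial is irreducible up to a factor of
measure `1` and whose Gram height is at most `Λ(M(A))` (for instance at most `K + C log M(A)`).  They
have bounded companions: for every `B` the measures below `B` are measures of polynomials with a
coprime companion of bounded height.  Hence the closure of the multiplicative monoid generated by these
measures and by any other class with bounded companions consists of Mahler measures of integer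
polynomials in several variables, it has a gap above `1`, and below every bound it has finite
Cantor-Bendixson rank.

Method.  The pair of the characteristic polynomial and a diagonal minor has height at most
`log M(A) + log 18 + 5 (Gram height)`: see `Pool.Agent.Helper168.SV`; some minor is not divisible by the
irreducible factor.
-/

set_option autoImplicit false

namespace Pool.Agent.Results.MP_6d22ea_nt.GramHeightClosure

open MeasureTheory

noncomputable section

/-- Value of an integer polynomial in `k` variables at the torus point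
`(exp (2 π i t_1), …, exp (2 π i t_k))`. -/
def value {k : ℕ} (F : MvPolynomial (Fin k) ℤ) (t : Fin k → ℝ) : ℂ :=
  MvPolynomial.eval
    (fun j : Fin k => Complex.exp (2 * (Real.pi : ℂ) * Complex.I * ((t j : ℝ) : ℂ)))
    (MvPolynomial.map (Int.castRingHom ℂ) F)

/-- The Mahler measure of an integer polynomial in `k` variables. -/
def mahler {k : ℕ} (F : MvPolynomial (Fin k) ℤ) : ℝ :=
  Real.exp (∫ t in Set.Icc (0 : Fin k → ℝ) 1, Real.log ‖value F t‖)

/-- The integral of `log max(|F|, |G|)` over the torus. -/
def pairHeight {k : ℕ} (F G : MvPolynomial (Fin k) ℤ) : ℝ :=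
  ∫ t in Set.Icc (0 : Fin k → ℝ) 1, Real.log (max ‖value F t‖ ‖value G t‖)

/-- The set of the Mahler measures of the nonzero integer polynomials in any number of variables. -/
def allMeasures : Set ℝ :=
  {x : ℝ | ∃ k : ℕ, 1 ≤ k ∧ ∃ F : MvPolynomial (Fin k) ℤ, F ≠ 0 ∧ x = mahler F}

/-- The Mahler measures of the nonzero polynomials `F` having a coprime companion `G ≠ 0` with
`∫ log max(|F|, |G|) ≤ K`. -/
def L (K : ℝ) : Set ℝ :=
  {x : ℝ | ∃ k : ℕ, 1 ≤ k ∧ ∃ F G : MvPolynomial (Fin k) ℤ, F ≠ 0 ∧ G ≠ 0 ∧ IsRelPrime F G ∧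
    pairHeight F G ≤ K ∧ x = mahler F}

/-- For every `B` some `L K` contains all elements of `T` below `B`. -/
def BoundedCompanions (T : Set ℝ) : Prop := ∀ B : ℝ, ∃ K : ℝ, T ∩ Set.Iio B ⊆ L K

/-- The matrix of Laurent polynomials `A = z ^ (-d) P(z)` at a point of the torus. -/
def laurent {k n : ℕ} (P : Matrix (Fin n) (Fin n) (MvPolynomial (Fin k) ℤ)) (d : Fin k →₀ ℕ)
    (t : Fin k → ℝ) : Matrix (Fin n) (Fin n) ℂ :=
  Matrix.of fun i j => (value (MvPolynomial.monomial d 1) t)⁻¹ * value (P i j) t

/-- The polynomial `det (z_0 z ^ d - P(z))` in `z_0, z_1, …, z_k`; up to the monomial `z ^ (n d)` it is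
the characteristic polynomial `det (z_0 - A(z))`. -/
def charDet {k n : ℕ} (P : Matrix (Fin n) (Fin n) (MvPolynomial (Fin k) ℤ)) (d : Fin k →₀ ℕ) :
    MvPolynomial (Fin (k + 1)) ℤ :=
  (Matrix.of fun i j => (if i = j then MvPolynomial.X 0 *
    MvPolynomial.rename Fin.succ (MvPolynomial.monomial d 1) else 0) -
    MvPolynomial.rename Fin.succ (P i j)).det

/-- The mean over the torus of the logarithm of the Mahler measure of the characteristic polynomial
of `A(z)* A(z)`, that is, of the product of the numbers `max(1, σ ^ 2)` over the singular values of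
`A(z)`. -/
def gramHeight {k n : ℕ} (P : Matrix (Fin n) (Fin n) (MvPolynomial (Fin k) ℤ))
    (d : Fin k →₀ ℕ) : ℝ :=
  ∫ t in Set.Icc (0 : Fin k → ℝ) 1,
    Real.log ((laurent P d t).conjTranspose * laurent P d t).charpoly.mahlerMeasure

/-- The measures of the characteristic polynomials, irreducible up to a factor of measure `1`, of the
matrices whose Gram height is at most the value of `Λ` at the measure. -/
def gramMeasures (Λ : ℝ → ℝ) : Set ℝ :=
  {x : ℝ | ∃ (k n : ℕ) (P : Matrix (Fin n) (Fin n) (MvPolynomial (Fin k) ℤ)) (d : Fin k →₀ ℕ)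
    (f u : MvPolynomial (Fin (k + 1)) ℤ), charDet P d = f * u ∧ Irreducible f ∧ mahler u = 1 ∧
      x = mahler (charDet P d) ∧ gramHeight P d ≤ Λ x}

theorem result (Λ : ℝ → ℝ) (hΛ : Monotone Λ) :
    BoundedCompanions (gramMeasures Λ) ∧
    ∀ T : Set ℝ, BoundedCompanions T →
      BoundedCompanions (Submonoid.closure (T ∪ gramMeasures Λ) : Submonoid ℝ) ∧
      closure ((Submonoid.closure (T ∪ gramMeasures Λ) : Submonoid ℝ) : Set ℝ) ⊆ allMeasures ∧
      (∃ δ : ℝ, 1 < δ ∧ ∀ x ∈ (Submonoid.closure (T ∪ gramMeasures Λ) : Submonoid ℝ),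
        x = 1 ∨ δ ≤ x) ∧
      ∀ B : ℝ, ∃ m : ℕ, ∀ x ∈ derivedSet^[m]
        ((Submonoid.closure (T ∪ gramMeasures Λ) : Submonoid ℝ) : Set ℝ), B ≤ x := by
  have h0 : gramMeasures Λ = Pool.Agent.Helper168.SV.GM Λ := by
    have h1 : ∀ (k n : ℕ) (P : Matrix (Fin n) (Fin n) (MvPolynomial (Fin k) ℤ)) (d : Fin k →₀ ℕ),
        charDet P d = (Pool.Agent.W110.PF.pm Polynomial.X 0 P d).det := by
      intro k n P d
      unfold charDet Pool.Agent.W110.PF.pm
      congr 1
      ext1 i j
      rw [Matrix.of_apply, Matrix.of_apply, Polynomial.aeval_X, pow_zero, one_mul]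
    unfold gramMeasures Pool.Agent.Helper168.SV.GM
    simp only [h1]
    rfl
  have hB : Pool.Agent.TH845.KN.BC (gramMeasures Λ) := by
    rw [h0]
    exact Pool.Agent.Helper168.SV.GM_BC Λ hΛ
  refine ⟨hB, fun T hT => ?_⟩
  have h1 : Pool.Agent.TH845.KN.BC
      ((Submonoid.closure (T ∪ gramMeasures Λ) : Submonoid ℝ) : Set ℝ) :=
    Pool.Agent.TH845.KN.BC_monoid (Pool.Agent.TH845.KN.BC.union hT hB)
  obtain ⟨h2, h3⟩ := Pool.Agent.W242.IM.closure_of_LL _ h1
  exact ⟨h1, h2, Pool.Agent.TH845.KN.gap_BC h1, h3⟩

end

end Pool.Agent.Results.MP_6d22ea_nt.GramHeightClosure
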